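import Pool.Agent.Lib_MP_5027f4_cont.SEnd
import Pool.Agent.Lib_MP_5027f4_cont.PFull

/-!
# Near a Lyapunov stable relative periodic orbit of the planar three-body problem all elliptic
# orbits have repeated multipliers
-/

open Set Polynomial

namespace Pool.Agent.MP_5027f4_cont.Withdrawn.RepeatedMultipliers

open Pool.Agent.MP_5027f4_mp

/-- a motion of the three bodies: positions and velocities -/
abbrev Motion := ℝ → (Fin 3 → ℂ) × (Fin 3 → ℂ)

/-- the mutual distance of the bodies `a` and `b` -/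
noncomputable def dst (x : Motion) (a b : Fin 3) (t : ℝ) : ℝ := ‖(x t).1 a - (x t).1 b‖

/-- `x` is relative periodic (every mutual distance is periodic), or its mutual distances are
bounded and bounded away from zero -/
def Tame (x : Motion) : Prop :=
  (∀ a b, ∃ T > 0, ∀ t, dst x a b (t + T) = dst x a b t) ∨
    ∃ r > 0, ∃ R : ℝ, (∀ t a b, a ≠ b → r ≤ dst x a b t) ∧ ∀ t a b, dst x a b t ≤ R

/-- all mutual distances are constant -/
def Rigid (x : Motion) : Prop := ∀ a b t, dst x a b t = dst x a b 0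

/-- `x` is periodic up to the rotation `u` -/
def Twisted (x : Motion) (T : ℝ) (u : ℂ) : Prop := 0 < T ∧ ‖u‖ = 1 ∧ ∀ t, x (t + T) = u • x t

/-- `M` is the monodromy of the motion `x` with `x (t + T) = u x(t)`: every solution `J` on `[0, T]`
of the variational equation along `x` in the center-of-mass space (real dimension `8`) satisfies
`J(T) = u M (J(0))`; on the translations `M` is extended by zero. -/
def IsMonodromy (m : Fin 3 → ℝ) (x : Motion) (T : ℝ) (u : ℂ)
    (M : ((Fin 3 → ℂ) × (Fin 3 → ℂ)) →ₗ[ℝ] ((Fin 3 → ℂ) × (Fin 3 → ℂ))) : Prop :=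
  (∀ J : Motion, IsJacobi m x T J → J T = u • M (J 0)) ∧
    ∀ w : ℂ × ℂ, M (fun _ => w.1, fun _ => w.2) = 0

/-- The monodromy of `x` has (on the center-of-mass space, with multiplicities) the eigenvalues
`1, 1, 1, 1, l₁, 1/l₁, l₂, 1/l₂`, and `l₁`, `l₂` are on the unit circle; the factor `X ^ 4` belongs to
the extension by zero. -/
def Elliptic (m : Fin 3 → ℝ) (x : Motion) (T : ℝ) (u l₁ l₂ : ℂ) : Prop :=
  ‖l₁‖ = 1 ∧ ‖l₂‖ = 1 ∧ ∃ M, IsMonodromy m x T u M ∧ M.charpoly.map (algebraMap ℝ ℂ) =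
    X ^ 4 * ((X - 1) ^ 4 * ((X - C l₁) * (X - C l₁⁻¹) * ((X - C l₂) * (X - C l₂⁻¹))))

/-- two of the four multipliers `l₁, 1/l₁, l₂, 1/l₂` are equal -/
def Repeated (l₁ l₂ : ℂ) : Prop := l₁ ^ 2 = 1 ∨ l₂ ^ 2 = 1 ∨ l₁ = l₂ ∨ l₁ * l₂ = 1

theorem rep_of {l₁ l₂ : ℂ} (h : ¬ Pool.Agent.MP_5027f4_cont.NonRes2 l₁ l₂) :
    Repeated l₁ l₂ := by
  unfold Pool.Agent.MP_5027f4_cont.NonRes2 at h
  unfold Repeated
  by_contra hn
  push Not at hn
  exact h ⟨hn.1, hn.2.1, hn.2.2.1, hn.2.2.2⟩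

/-- For all positive masses: if the orbit of a relative periodic solution of the planar three-body
problem (or of a solution with mutual distances bounded and bounded away from zero) is Lyapunov
stable in the center-of-mass frame, then either all mutual distances are constant, or it is periodic,
its multipliers lie on the unit circle, and near it (in particular on it) every relative periodic
orbit with multipliers on the unit circle has a multiplier `±1` or a double multiplier. -/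
theorem result (m : Fin 3 → ℝ) (hm : ∀ a, 0 < m a) (x : Motion) (hx : IsSolution m univ x)
    (hrel : Tame x) (hst : LyapunovStable m (range x)) :
    Rigid x ∨ (∃ P, Twisted x P 1) ∧ (∀ T u, Twisted x T u → ∃ l₁ l₂, Elliptic m x T u l₁ l₂) ∧
      ∃ U, IsOpen U ∧ range x ⊆ U ∧ ∀ y, IsSolution m univ y → y 0 ∈ U → ∀ T u, Twisted y T u →
        ∀ l₁ l₂, Elliptic m y T u l₁ l₂ → Repeated l₁ l₂ := by
  obtain ⟨r, hr, R, hxr, hxR⟩ : ∃ r > 0, ∃ R : ℝ,
      (∀ t a b, a ≠ b → r ≤ ‖(x t).1 a - (x t).1 b‖) ∧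
        ∀ t a b, ‖(x t).1 a - (x t).1 b‖ ≤ R := by
    rcases hrel with h | h
    · exact bounds_of_periodic hx h
    · exact h
  obtain ⟨P, hP, hper⟩ := periodic_of_lyapunovStable hm hx hr hxr hxR hst
  by_cases hnc : ∀ a b t, ‖(x t).1 a - (x t).1 b‖ = ‖(x 0).1 a - (x 0).1 b‖
  · exact Or.inl hnc
  · right
    obtain ⟨h1, U, hU, hxU, h2⟩ := Pool.Agent.MP_5027f4_cont.main4 hm hx hP hper hst hnc
    refine ⟨⟨P, hP, by simp, fun t => by rw [hper, one_smul]⟩, fun T u hxu => ?_, U, hU, hxU,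
      fun y hy hy0 T u hyu l₁ l₂ hE => ?_⟩
    · obtain ⟨M, hM, l₁, l₂, hl₁, hl₂, hMl, -⟩ := h1 T hxu.1 u hxu.2.1 hxu.2.2
      exact ⟨l₁, l₂, hl₁, hl₂, (Pool.Agent.MP_5027f4_cont.monF_iff hm hxu.1
        (Solves.mono hx (subset_univ _)) hxu.2.1 _).2 ⟨M, hM, hMl⟩⟩
    · obtain ⟨hl₁, hl₂, hE⟩ := hE
      obtain ⟨M, hM, hMl⟩ := (Pool.Agent.MP_5027f4_cont.monF_iff hm hyu.1
        (Solves.mono hy (subset_univ _)) hyu.2.1 _).1 hE
      exact rep_of (h2 y hy hy0 T hyu.1 u hyu.2.1 hyu.2.2 M hM l₁ l₂ hl₁ hl₂ hMl)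

end Pool.Agent.MP_5027f4_cont.Withdrawn.RepeatedMultipliers
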